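import Mathlib
import Pool.Agent.Q19.Fre.Bridge

/-!
Flatness of projective tensor products of flat Fréchet modules (Q1, answered in the affirmative).

The definitions used in the statement are in `Pool.Agent.Q19.FreS.Stmt` and
`Pool.Agent.Helper5.Polynormed`.
-/

set_option autoImplicit false

namespace Pool.Agent.Results.MP_9bb9cf_an.FlatTensor

open Pool.Agent.Helper5 Pool.Agent.Q19.FreS Pool.Agent.Q19.Fre

universe u

/-- Let `A` be a Fréchet algebra, `X` a flat left Fréchet `A`-module and `Y` a flat right Fréchet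
`A`-module. The bimodule `Z = X ⊗̂ Y` with `a (x ⊗ y) b = (a x) ⊗ (y b)` exists, it is a Fréchet
bimodule, all the tensor products `N ⊗̂_{A^e} Z` exist, and `Z` is flat in `A`-mod-`A`. -/
theorem result (A : Type u) [NonUnitalRing A] [Module ℂ A] [UniformSpace A] [IsFre A]
    (hA : IsFreAlg A) (X Y : FM.{u, u} A) (hX : IsLeft A X) (hXflat : FlatL A X)
    (hY : IsRight A Y) (hYflat : FlatR A Y) :
    (∃ (Z : FM.{u, u} (A ⊕ A)) (t : X.carrier → Y.carrier → Z.carrier), IsOuter X Y Z t) ∧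
    ∀ (Z : FM.{u, u} (A ⊕ A)) (t : X.carrier → Y.carrier → Z.carrier), IsOuter X Y Z t →
      IsBi A Z ∧ (∀ N : FM.{u, u} (A ⊕ A), Nonempty (Tensor N.swap Z)) ∧ FlatB A Z := by
  refine ⟨⟨ofF (outer (toF X) (toF Y)), pt, isProjTensor_pt,
    fun a x y => outer_inl (X := toF X) (Y := toF Y) a x y,
    fun b x y => outer_inr (X := toF X) (Y := toF Y) b x y⟩, fun Z t hZ => ?_⟩
  obtain ⟨h1, h2⟩ := flat_outer' hA hX hXflat hY hYflat hZ
  exact ⟨h1, fun N => ⟨model (toF N.swap) (toF Z)⟩, h2⟩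

end Pool.Agent.Results.MP_9bb9cf_an.FlatTensor
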